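import Pool.Agent.H30ML.Zero

/-!
The Mittag-Leffler quadratic combination has a zero on the half-line for some parameter.
-/

set_option autoImplicit false

namespace Pool.Agent.Results.MP_aff8e8_an.ZeroExists

noncomputable section

/-- the two-parameter Mittag-Leffler function -/
def ML (α β : ℝ) (z : ℂ) : ℂ := ∑' k : ℕ, z ^ k / ((Real.Gamma (α * k + β) : ℝ) : ℂ)

/-- the quadratic combination `ψ_α(t)`, with `i ^ (-α)` the principal power -/
def psi (α t : ℝ) : ℂ :=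
  ML α 1 (Complex.I ^ (-(α : ℂ)) * t) ^ 2 -
    Complex.I ^ (-(α : ℂ)) * t * ML α 2 (Complex.I ^ (-(α : ℂ)) * t) *
      ML α α (Complex.I ^ (-(α : ℂ)) * t)

open Pool.Agent.H30ML Real

/-- the common factor -/
def Cst : ℝ := 2 ^ 123 * 90 / Real.exp 90

theorem Cst_pos : 0 < Cst := by
  unfold Cst
  positivity

theorem I_pow (a : ℝ) : Complex.I ^ (-(a : ℂ)) = Complex.exp (-(π * a / 2 * Complex.I)) := by
  rw [Complex.cpow_def_of_ne_zero Complex.I_ne_zero, Complex.log_I]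
  congr 1
  ring

theorem z_eq (a u : ℝ) :
    Complex.I ^ (-(a : ℂ)) * ((t0 * Real.exp u * 90 ^ a : ℝ) : ℂ) =
      ((t0 * 90 ^ a : ℝ) : ℂ) * vv a u := by
  rw [I_pow]
  unfold vv
  rw [sub_eq_add_neg, Complex.exp_add]
  push_cast
  ring

theorem ee_eq {a : ℝ} (ha : 0 < a) (u : ℝ) (k : ℕ) :
    ee a u k = Cst * ((((t0 * 90 ^ a : ℝ) : ℂ) * vv a u) ^ k /
      ((Real.Gamma (a * k + 1) : ℝ) : ℂ)) := by
  have hG := Real.Gamma_pos_of_pos (arg_pos ha k)
  have h1 : y a k = Cst * ((t0 * 90 ^ a) ^ k / Real.Gamma (a * k + 1)) := by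
    unfold y G Cst
    have h2 : ((1 : ℝ) / 90) ^ (a * k + 1) * (((90 : ℝ) ^ a) ^ k * 90) = 1 := by
      rw [one_div, Real.inv_rpow (by norm_num), Real.rpow_add (by norm_num), Real.rpow_one,
        Real.rpow_mul_natCast (by norm_num)]
      have : (0 : ℝ) < (90 ^ a) ^ k := by positivity
      field_simp
    have p1 : (0 : ℝ) < (1 / 90) ^ (a * k + 1) := by positivity
    have p2 : 0 < Real.exp 90 := Real.exp_pos _
    rw [mul_pow, div_eq_iff (by positivity)]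
    have e : 2 ^ 123 * 90 / Real.exp 90 * (t0 ^ k * (90 ^ a) ^ k / Real.Gamma (a * k + 1)) *
        (Real.exp 90 * ((1 / 90) ^ (a * k + 1) * Real.Gamma (a * k + 1))) =
        2 ^ 123 * t0 ^ k * (((1 : ℝ) / 90) ^ (a * k + 1) * (((90 : ℝ) ^ a) ^ k * 90)) := by
      field_simp
    rw [e, h2, mul_one]
  unfold ee
  rw [h1, mul_pow]
  push_cast
  ring

theorem ML_one {a u : ℝ} (ha : 0 < a) :
    Sw w0 a u = Cst * ML a 1 (((t0 * 90 ^ a : ℝ) : ℂ) * vv a u) := by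
  unfold Sw ML
  rw [← tsum_mul_left]
  apply tsum_congr
  intro k
  rw [ee_eq ha]
  unfold w0
  push_cast
  ring

theorem ML_two {a u : ℝ} (ha : 0 < a) :
    Sw (wc a) a u = Cst * ML a 2 (((t0 * 90 ^ a : ℝ) : ℂ) * vv a u) := by
  unfold Sw ML
  rw [← tsum_mul_left]
  apply tsum_congr
  intro k
  rw [ee_eq ha]
  unfold wc
  have hs := arg_pos ha k
  have e : a * k + 2 = a * k + 1 + 1 := by ring
  rw [e, Real.Gamma_add_one hs.ne']
  have hG := Real.Gamma_pos_of_pos hs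
  have h1 : ((a * k + 1 : ℝ) : ℂ) ≠ 0 := by exact_mod_cast hs.ne'
  have h2 : ((Real.Gamma (a * k + 1) : ℝ) : ℂ) ≠ 0 := by exact_mod_cast hG.ne'
  rw [Complex.ofReal_div, Complex.ofReal_mul (a * k + 1) (Real.Gamma (a * k + 1)),
    Complex.ofReal_one]
  field_simp

theorem ML_self {a u : ℝ} (h : Dom a u) :
    a * Sw w1 a u = Cst * (((t0 * 90 ^ a : ℝ) : ℂ) * vv a u *
      ML a a (((t0 * 90 ^ a : ℝ) : ℂ) * vv a u)) := by
  have ha : 0 < a := by linarith [h.h1]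
  have hs : Summable fun k => (w1 k : ℂ) * ee a u k :=
    term_summable h (w := fun k => (w1 k : ℂ)) (fun k => by
      rw [Complex.norm_real, Real.norm_eq_abs]; exact w1_le k)
  unfold Sw ML
  rw [hs.tsum_eq_zero_add]
  have e0 : (w1 0 : ℂ) * ee a u 0 = 0 := by
    unfold w1
    simp
  rw [e0, zero_add, ← tsum_mul_left, ← tsum_mul_left, ← tsum_mul_left]
  apply tsum_congr
  intro k
  rw [ee_eq ha]
  unfold w1
  have hk : 0 < a * (k + 1 : ℕ) := by positivity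
  have e : a * (k + 1 : ℕ) = a * k + a := by push_cast; ring
  rw [Real.Gamma_add_one hk.ne', e]
  rw [e] at hk
  have hG := Real.Gamma_pos_of_pos hk
  have h1 : ((a * k + a : ℝ) : ℂ) ≠ 0 := by exact_mod_cast hk.ne'
  have h2 : ((Real.Gamma (a * k + a) : ℝ) : ℂ) ≠ 0 := by exact_mod_cast hG.ne'
  have h3 : ((a * k + a : ℝ) : ℂ) = a * ((k + 1 : ℕ) : ℂ) := by push_cast; ring
  rw [Complex.ofReal_mul (a * k + a) (Real.Gamma (a * k + a)), pow_succ]
  have h4 : (((k + 1 : ℕ) : ℝ) : ℂ) = ((k + 1 : ℕ) : ℂ) := by push_cast; ring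
  rw [h4]
  generalize ((t0 * 90 ^ a : ℝ) : ℂ) * vv a u = z
  generalize ((Real.Gamma (a * k + a) : ℝ) : ℂ) = g at *
  rw [h3] at h1 ⊢
  have ha' : (a : ℂ) ≠ 0 := by exact_mod_cast ha.ne'
  have hk1 : ((k + 1 : ℕ) : ℂ) ≠ 0 := by
    rw [Nat.cast_ne_zero]
    omega
  field_simp

/-- There are `α` in `(1, 2)` and `t > 0` with `ψ_α(t) = 0`. -/
theorem result : ∃ α t : ℝ, 1 < α ∧ α < 2 ∧ 0 < t ∧ psi α t = 0 := by
  obtain ⟨a, ha, u, hu, h0⟩ := zero_exists
  have h1 : 168 / 100 ≤ a := a1_bd.trans ha.1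
  have h2 : a ≤ 17 / 10 := ha.2.trans a2_bd
  have hpos : 0 < a := by linarith
  have hd : Dom a u := by
    apply dom ha
    rw [abs_lt]
    constructor
    · refine lt_of_lt_of_le ?_ hu.1
      norm_num
    · refine lt_of_le_of_lt hu.2 ?_
      norm_num
  refine ⟨a, t0 * Real.exp u * 90 ^ a, by linarith, by linarith, ?_, ?_⟩
  · have := t0_pos
    positivity
  · unfold psi
    rw [z_eq]
    have hc : (Cst : ℂ) ≠ 0 := by exact_mod_cast Cst_pos.ne'
    have e1 := ML_one (a := a) (u := u) hpos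
    have e2 := ML_two (a := a) (u := u) hpos
    have e3 := ML_self hd
    unfold FF at h0
    have h3 : (Cst : ℂ) ^ 2 * (ML a 1 (((t0 * 90 ^ a : ℝ) : ℂ) * vv a u) ^ 2 -
        ((t0 * 90 ^ a : ℝ) : ℂ) * vv a u * ML a 2 (((t0 * 90 ^ a : ℝ) : ℂ) * vv a u) *
          ML a a (((t0 * 90 ^ a : ℝ) : ℂ) * vv a u)) = 0 := by
      rw [← h0, e1, ← mul_assoc, e3, e2]
      ring
    rcases mul_eq_zero.1 h3 with h | h
    · exact absurd h (pow_ne_zero 2 hc)
    · exact h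

end

end Pool.Agent.Results.MP_aff8e8_an.ZeroExists
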